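import Pool.Agent.Helper67.DF.Stmts
import Pool.Agent.Helper67.BT.Basic2

/-! Project DF (MP_10bc19_gt), row IBP: integration by parts. -/

set_option autoImplicit false

open Finset MeasureTheory

namespace Pool.Agent.Helper56.DF

open Pool.Agent.Helper67.BT Pool.Agent.Helper67.DF

/-- derivative of the potential along a line -/
theorem lineDeriv_VV {n k : ℕ} (a : Fin n → E k) {c K α : ℝ} {U ψ w : Fin n → ℝ → ℝ}
    (h : PF c K α U ψ w) (x g : E k) :
    HasLineDerivAt ℝ (VV a U) (∑ l, ψ l (inner ℝ (a l) x) * inner ℝ (a l) g) x g := by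
  have h1 : ∀ l : Fin n, HasDerivAt (fun t : ℝ => U l (inner ℝ (a l) (x + t • g)))
      (ψ l (inner ℝ (a l) x) * inner ℝ (a l) g) 0 := by
    intro l
    have e : ∀ t : ℝ, inner ℝ (a l) (x + t • g) = inner ℝ (a l) x + t * inner ℝ (a l) g := by
      intro t
      rw [inner_add_right, inner_smul_right]
    have h2 : HasDerivAt (fun t : ℝ => (inner ℝ (a l) (x + t • g) : ℝ)) (inner ℝ (a l) g) 0 := by
      simp only [e]
      have := ((hasDerivAt_id (0 : ℝ)).mul_const (inner ℝ (a l) g)).const_add (inner ℝ (a l) x)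
      rw [one_mul] at this
      exact this
    have h3 := h.dU l (inner ℝ (a l) (x + (0 : ℝ) • g))
    have h4 := HasDerivAt.comp (0 : ℝ) h3 h2
    rw [zero_smul, add_zero] at h4
    exact h4
  have h5 := HasDerivAt.fun_sum (u := (univ : Finset (Fin n))) fun l _ => h1 l
  exact h5

theorem st_IBP (ig : ST_IG) : ST_IBP := by
  intro n k a c K α U ψ w hs h g F F' hF hF' hd
  obtain ⟨δ, _, H⟩ := ig n k a hs c h.c0
  obtain ⟨_, _, _, hP, hI, _⟩ := H K α U ψ w h
  have hV := fun x => lineDeriv_VV a h x g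
  have hdV : PG (fun x : E k => ∑ l, ψ l (inner ℝ (a l) x) * inner ℝ (a l) g) := by
    refine PG_sum _ fun l _ => ?_
    exact PG_mul (hP l).1 (PG_const _)
  have hG : ∀ x, HasLineDerivAt ℝ (fun x => Real.exp (-(VV a U x)))
      (-(∑ l, ψ l (inner ℝ (a l) x) * inner ℝ (a l) g) * Real.exp (-(VV a U x))) x g := by
    intro x
    have h1 : HasDerivAt (fun t : ℝ => VV a U (x + t • g))
        (∑ l, ψ l (inner ℝ (a l) x) * inner ℝ (a l) g) 0 := hV x
    have h2 := h1.neg.exp
    have h3 : HasDerivAt (fun t : ℝ => Real.exp (-(VV a U (x + t • g))))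
        (Real.exp (-(VV a U (x + (0 : ℝ) • g))) *
          -(∑ l, ψ l (inner ℝ (a l) x) * inner ℝ (a l) g)) 0 := h2
    rw [zero_smul, add_zero, mul_comm] at h3
    exact h3
  have h1 := integral_bilinear_hasLineDerivAt_right_eq_neg_left_of_integrable
    (μ := (volume : Measure (E k))) (f := F) (f' := F') (g := fun x => Real.exp (-(VV a U x)))
    (g' := fun x => -(∑ l, ψ l (inner ℝ (a l) x) * inner ℝ (a l) g) * Real.exp (-(VV a U x)))
    (v := g) (B := ContinuousLinearMap.mul ℝ ℝ) ?_ ?_ ?_ (fun x _ => hd x) (fun x _ => hG x)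
  · simp only [ContinuousLinearMap.mul_apply'] at h1
    unfold J
    rw [← neg_inj, ← h1, ← integral_neg]
    congr 1
    ext x
    ring
  · exact hI F' hF'
  · have := hI _ (PG_mul hF (PG_neg hdV))
    refine this.congr (Filter.Eventually.of_forall fun x => ?_)
    simp only [ContinuousLinearMap.mul_apply']
    ring
  · exact hI F hF

end Pool.Agent.Helper56.DF
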