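import Pool.Agent.Helper67.DF.Stmts
import Pool.Agent.Helper67.BT.Basic2

/-! Project DF (MP_10bc19_gt), row MOM: moments, uniformly in the family. -/

set_option autoImplicit false

open Finset MeasureTheory

namespace Pool.Agent.Helper56.DF

open Pool.Agent.Helper67.BT Pool.Agent.Helper67.DF

/-- tangent line inequality for one of the potentials -/
theorem tangent {n : ℕ} {c K α : ℝ} {U ψ w : Fin n → ℝ → ℝ} (h : PF c K α U ψ w) (l : Fin n)
    (t : ℝ) : U l t - U l 0 ≤ ψ l t * t := by
  have hmono : Monotone (ψ l) := by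
    refine monotone_of_deriv_nonneg (fun s => (h.dp l s).differentiableAt) fun s => ?_
    rw [(h.dp l s).deriv]
    exact h.c0.le.trans (h.lo l s)
  have hd : ∀ s, HasDerivAt (fun s => ψ l t * s - U l s) (ψ l t * 1 - ψ l s) s := by
    intro s
    exact ((hasDerivAt_id s).const_mul (ψ l t)).sub (h.dU l s)
  have hdiff : Differentiable ℝ (fun s => ψ l t * s - U l s) := fun s => (hd s).differentiableAt
  rcases le_total 0 t with ht | ht
  · have h1 : MonotoneOn (fun s => ψ l t * s - U l s) (Set.Icc 0 t) := by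
      refine monotoneOn_of_deriv_nonneg (convex_Icc 0 t) hdiff.continuous.continuousOn
        hdiff.differentiableOn fun s hs => ?_
      rw [interior_Icc] at hs
      rw [(hd s).deriv]
      have := hmono hs.2.le
      linarith
    have h2 := h1 (Set.left_mem_Icc.2 ht) (Set.right_mem_Icc.2 ht) ht
    simp only [mul_zero, zero_sub] at h2
    linarith
  · have h1 : AntitoneOn (fun s => ψ l t * s - U l s) (Set.Icc t 0) := by
      refine antitoneOn_of_deriv_nonpos (convex_Icc t 0) hdiff.continuous.continuousOn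
        hdiff.differentiableOn fun s hs => ?_
      rw [interior_Icc] at hs
      rw [(hd s).deriv]
      have := hmono hs.1.le
      linarith
    have h2 := h1 (Set.left_mem_Icc.2 ht) (Set.right_mem_Icc.2 ht) ht
    simp only [mul_zero, zero_sub] at h2
    linarith

theorem st_MOM (ibm : ST_IBM) (ig : ST_IG) : ST_MOM := by
  intro n k a hs c j hc
  obtain ⟨δ, hδ, H⟩ := ig n k a hs c hc
  induction j with
  | zero =>
    refine ⟨1, fun K α U ψ w h => ?_⟩
    simp
  | succ j ih =>
    obtain ⟨M, hM⟩ := ih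
    refine ⟨((k : ℝ) + 2 * j) / δ * M, fun K α U ψ w h => ?_⟩
    obtain ⟨hgr, _, _, hP, hI, _⟩ := H K α U ψ w h
    have hMj := hM K α U ψ w h
    have hpow : ∀ i : ℕ, PG (fun x : E k => ‖x‖ ^ (2 * i)) := fun i => PG_pow PG_norm _
    have hibm := ibm n k a c K α U ψ w hs h LinearMap.id (fun x => ‖x‖ ^ (2 * j))
      (fun x => (2 * (j : ℝ) * ‖x‖ ^ (2 * (j - 1))) • x) (hpow j) ?_ ?_
    · rw [LinearMap.trace_id, finrank_euclideanSpace_fin] at hibm
      simp only [LinearMap.id_coe, id_eq] at hibm
      have e1 : J a U (fun x => inner ℝ ((2 * (j : ℝ) * ‖x‖ ^ (2 * (j - 1))) • x) x) =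
          2 * (j : ℝ) * J a U (fun x => ‖x‖ ^ (2 * j)) := by
        unfold J
        rw [← integral_const_mul]
        congr 1
        ext x
        simp only
        rw [real_inner_smul_left, real_inner_self_eq_norm_sq]
        rcases Nat.eq_zero_or_pos j with hj | hj
        · subst hj; simp
        · have e2 : ‖x‖ ^ (2 * j) = ‖x‖ ^ (2 * (j - 1)) * ‖x‖ ^ 2 := by
            rw [← pow_add]
            congr 1
            omega
          rw [e2]
          ring
      rw [e1] at hibm
      have h2 : δ * J a U (fun x => ‖x‖ ^ (2 * (j + 1))) ≤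
          J a U (fun x => ‖x‖ ^ (2 * j) * ∑ l, ψ l (inner ℝ (a l) x) * inner ℝ (a l) x) := by
        unfold J
        rw [← integral_const_mul]
        have hPG : PG (fun x : E k => ‖x‖ ^ (2 * j) *
            ∑ l, ψ l (inner ℝ (a l) x) * inner ℝ (a l) x) :=
          PG_mul (hpow j) (PG_sum _ fun l _ => PG_mul (hP l).1 (PG_inner (a l)))
        refine integral_mono ((hI _ (hpow (j + 1))).const_mul δ) (hI _ hPG) fun x => ?_
        have h3 : δ * ‖x‖ ^ 2 ≤ ∑ l, ψ l (inner ℝ (a l) x) * inner ℝ (a l) x := by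
          have h4 := hgr x
          have h5 : VV a U x - VV a U 0 ≤ ∑ l, ψ l (inner ℝ (a l) x) * inner ℝ (a l) x := by
            unfold VV
            rw [← Finset.sum_sub_distrib]
            refine Finset.sum_le_sum fun l _ => ?_
            rw [inner_zero_right]
            exact tangent h l _
          linarith
        have e2 : ‖x‖ ^ (2 * (j + 1)) = ‖x‖ ^ (2 * j) * ‖x‖ ^ 2 := by
          rw [← pow_add]
          congr 1
        simp only
        rw [e2, ← mul_assoc]
        refine mul_le_mul_of_nonneg_right ?_ (Real.exp_pos _).le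
        calc δ * (‖x‖ ^ (2 * j) * ‖x‖ ^ 2) = ‖x‖ ^ (2 * j) * (δ * ‖x‖ ^ 2) := by ring
          _ ≤ _ := mul_le_mul_of_nonneg_left h3 (by positivity)
      rw [hibm] at h2
      have h6 : J a U (fun x => ‖x‖ ^ (2 * (j + 1))) ≤
          ((k : ℝ) + 2 * j) / δ * J a U (fun x => ‖x‖ ^ (2 * j)) := by
        rw [div_mul_eq_mul_div, le_div_iff₀ hδ]
        linarith
      refine h6.trans ?_
      rw [mul_assoc]
      exact mul_le_mul_of_nonneg_left hMj (by positivity)
    · intro v
      have e : (fun x : E k => inner ℝ ((2 * (j : ℝ) * ‖x‖ ^ (2 * (j - 1))) • x) v) =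
          fun x => (2 * (j : ℝ) * ‖x‖ ^ (2 * (j - 1))) * inner ℝ x v := by
        ext x
        rw [real_inner_smul_left]
      rw [e]
      exact PG_mul (PG_const_mul _ (hpow (j - 1))) (PG_inner' v)
    · intro x v
      have h1 : HasDerivAt (fun t : ℝ => x + t • v) v 0 := by
        have := ((hasDerivAt_id (0 : ℝ)).smul_const v).const_add x
        rw [one_smul] at this
        exact this
      have h2 := (h1.norm_sq).fun_pow j
      have h3 : HasDerivAt (fun t : ℝ => ‖x + t • v‖ ^ (2 * j))
          (inner ℝ ((2 * (j : ℝ) * ‖x‖ ^ (2 * (j - 1))) • x) v) 0 := by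
        have e1 : (fun t : ℝ => ‖x + t • v‖ ^ (2 * j)) = fun t : ℝ => (‖x + t • v‖ ^ 2) ^ j := by
          ext t
          rw [pow_mul]
        rw [e1]
        have e2 : (inner ℝ ((2 * (j : ℝ) * ‖x‖ ^ (2 * (j - 1))) • x) v : ℝ) =
            j * (‖x + (0 : ℝ) • v‖ ^ 2) ^ (j - 1) * (2 * inner ℝ (x + (0 : ℝ) • v) v) := by
          rw [real_inner_smul_left, zero_smul, add_zero, pow_mul]
          ring
        rw [e2]
        exact h2
      exact h3

end Pool.Agent.Helper56.DF
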